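import Pool.Agent.GBS.StmtsC
import Pool.Agent.Helper11_GBS.CNT

/-!
# GBS: continuity and homogeneity of the density of the trace-free Ricci tensor (row RCT)
-/

noncomputable section

open scoped ContDiff Topology RealInnerProductSpace
open Set MeasureTheory Matrix

namespace Pool.Agent.GBS.H21

open Pool.Agent.RF Pool.Agent.MVS

/-- the determinant of the Gram matrix of a cylinder metric -/
theorem gm_det_ne {G : E5 → Bil E5} (hG : IsCyl G) {x : E5} (hx : x ∈ Om (Fin 5)) :
    (gm (G x)).det ≠ 0 :=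
  (Pool.Agent.MVS.H14.gm_posDef (G x) (hG.metric.symm x hx) (hG.metric.pos x hx)).det_pos.ne'

theorem gm_cont {G : E5 → Bil E5} (hG : IsCyl G) (i j : Fin 5) :
    ContinuousOn (fun x => gm (G x) i j) (Om (Fin 5)) := by
  change ContinuousOn (fun x => G x (eb i) (eb j)) (Om (Fin 5))
  exact (hG.metric.smooth.continuousOn.clm_apply continuousOn_const).clm_apply continuousOn_const

theorem gm_cont' {G : E5 → Bil E5} (hG : IsCyl G) :
    ContinuousOn (fun x => gm (G x)) (Om (Fin 5)) :=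
  continuousOn_pi.2 fun i => continuousOn_pi.2 fun j => gm_cont hG i j

theorem inv_cont {G : E5 → Bil E5} (hG : IsCyl G) (i j : Fin 5) :
    ContinuousOn (fun x => (gm (G x))⁻¹ i j) (Om (Fin 5)) := by
  have h1 : ∀ x, (gm (G x))⁻¹ i j = ((gm (G x)).det)⁻¹ * (gm (G x)).adjugate i j := by
    intro x
    rw [Matrix.inv_def, Matrix.smul_apply, smul_eq_mul, Ring.inverse_eq_inv']
  simp only [h1]
  have h2 : ContinuousOn (fun x => (gm (G x)).det) (Om (Fin 5)) := by
    have h4 : Continuous fun A : M5 => A.det := by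
      refine Continuous.matrix_det ?_
      exact continuous_id
    have h6 := h4.comp_continuousOn (gm_cont' hG)
    simpa only [Function.comp_def] using h6
  have h3 : ContinuousOn (fun x => (gm (G x)).adjugate i j) (Om (Fin 5)) := by
    have h4 : Continuous fun A : M5 => A.adjugate i j :=
      (Continuous.matrix_adjugate continuous_id).matrix_elem i j
    exact h4.comp_continuousOn (gm_cont' hG)
  have h5 : ContinuousOn (fun x => ((gm (G x)).det)⁻¹) (Om (Fin 5)) :=
    h2.inv₀ fun x hx => gm_det_ne hG hx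
  exact h5.mul h3

theorem tr_cont {G : E5 → Bil E5} (hG : IsCyl G) (i j k l : Fin 5) :
    ContinuousOn (fun x => (Rm G x i j * Rm G x k l).trace) (Om (Fin 5)) := by
  simp only [Matrix.trace, Matrix.diag, Matrix.mul_apply]
  exact continuousOn_finsetSum _ fun a _ => continuousOn_finsetSum _ fun b _ =>
    (Pool.Agent.GBS.H11.Rm_cont hG.metric i j a b).mul
      (Pool.Agent.GBS.H11.Rm_cont hG.metric k l b a)

theorem nr2_cont {G : E5 → Bil E5} (hG : IsCyl G) : ContinuousOn (nr2 G) (Om (Fin 5)) := by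
  unfold nr2
  refine ContinuousOn.neg ?_
  exact continuousOn_finsetSum _ fun i _ => continuousOn_finsetSum _ fun j _ =>
    continuousOn_finsetSum _ fun k _ => continuousOn_finsetSum _ fun l _ =>
      ((inv_cont hG i k).mul (inv_cont hG j l)).mul (tr_cont hG i j k l)

theorem Sm_cont {G : E5 → Bil E5} (hG : IsCyl G) (i j a b : Fin 5) :
    ContinuousOn (fun x => Sm G x i j a b) (Om (Fin 5)) := by
  unfold Sm
  simp only [Matrix.mul_apply]
  exact continuousOn_finsetSum _ fun c _ =>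
    (Pool.Agent.GBS.H11.Rm_cont hG.metric i j a c).mul (inv_cont hG c b)

theorem eul_cont {G : E5 → Bil E5} (hG : IsCyl G) : ContinuousOn (eul G) (Om (Fin 5)) := by
  unfold eul
  refine ContinuousOn.mul ?_ (ContinuousOn.mul ?_ ?_)
  · exact (continuous_norm.pow 2).continuousOn.inv₀ fun x hx => pow_ne_zero 2 (norm_ne_zero_iff.2 hx)
  · exact Pool.Agent.MVS.H14.sd_cont.comp_continuousOn hG.metric.smooth.continuousOn
  · unfold Pf ctr
    refine continuousOn_finsetSum _ fun i _ => continuousOn_finsetSum _ fun j _ =>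
      continuousOn_finsetSum _ fun k _ => continuousOn_finsetSum _ fun l _ => ?_
    refine ContinuousOn.mul (Pool.Agent.GBS.H11.eps_cont i j k l).continuousOn ?_
    refine continuousOn_finsetSum _ fun a _ => continuousOn_finsetSum _ fun b _ =>
      continuousOn_finsetSum _ fun c _ => continuousOn_finsetSum _ fun d _ => ?_
    exact ContinuousOn.mul (Pool.Agent.GBS.H11.eps_cont a b c d).continuousOn
      ((Sm_cont hG i j a b).mul (Sm_cont hG k l c d))

theorem gm_smul {G : E5 → Bil E5} (hG : IsCyl G) {x : E5} (hx : x ∈ Om (Fin 5)) {c : ℝ}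
    (hc : 0 < c) : gm (G (c • x)) = (c ^ 2)⁻¹ • gm (G x) := by
  ext i j
  simp [gm, hG.homog c hc x hx]

theorem inv_smul {G : E5 → Bil E5} (hG : IsCyl G) {x : E5} (hx : x ∈ Om (Fin 5)) {c : ℝ}
    (hc : 0 < c) : (gm (G (c • x)))⁻¹ = c ^ 2 • (gm (G x))⁻¹ := by
  refine Matrix.inv_eq_right_inv ?_
  rw [gm_smul hG hx hc, Matrix.smul_mul, Matrix.mul_smul, smul_smul,
    Matrix.mul_nonsing_inv _ (isUnit_iff_ne_zero.2 (gm_det_ne hG hx)),
    inv_mul_cancel₀ (pow_ne_zero 2 hc.ne'), one_smul]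

theorem Sm_smul {G : E5 → Bil E5} (hG : IsCyl G) {x : E5} (hx : x ∈ Om (Fin 5)) {c : ℝ}
    (hc : 0 < c) (i j : Fin 5) : Sm G (c • x) i j = Sm G x i j := by
  unfold Sm
  rw [Pool.Agent.GBS.H11.Rm_smul hG hx hc, inv_smul hG hx hc, Matrix.smul_mul, Matrix.mul_smul,
    smul_smul, inv_mul_cancel₀ (pow_ne_zero 2 hc.ne'), one_smul]

theorem nr2_smul {G : E5 → Bil E5} (hG : IsCyl G) {x : E5} (hx : x ∈ Om (Fin 5)) {c : ℝ}
    (hc : 0 < c) : nr2 G (c • x) = nr2 G x := by
  unfold nr2
  congr 1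
  refine Finset.sum_congr rfl fun i _ => Finset.sum_congr rfl fun j _ =>
    Finset.sum_congr rfl fun k _ => Finset.sum_congr rfl fun l _ => ?_
  rw [Pool.Agent.GBS.H11.Rm_smul hG hx hc, Pool.Agent.GBS.H11.Rm_smul hG hx hc,
    inv_smul hG hx hc, Matrix.smul_mul, Matrix.mul_smul, smul_smul, Matrix.trace_smul,
    Matrix.smul_apply, Matrix.smul_apply, smul_eq_mul, smul_eq_mul, smul_eq_mul]
  field_simp

theorem ctr_smul (c : ℝ) (u : Fin 5 → ℝ) (T : Fin 5 → Fin 5 → Fin 5 → Fin 5 → ℝ) :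
    ctr (c • u) T = c * ctr u T := by
  unfold ctr
  simp only [Pool.Agent.GBS.H11.eps_smul, Finset.mul_sum, mul_assoc]

theorem ctr_mul (c : ℝ) (u : Fin 5 → ℝ) (T : Fin 5 → Fin 5 → Fin 5 → Fin 5 → ℝ) :
    ctr u (fun i j k l => c * T i j k l) = c * ctr u T := by
  unfold ctr
  simp only [Finset.mul_sum]
  refine Finset.sum_congr rfl fun i _ => Finset.sum_congr rfl fun j _ =>
    Finset.sum_congr rfl fun k _ => Finset.sum_congr rfl fun l _ => ?_
  ring

theorem eul_smul {G : E5 → Bil E5} (hG : IsCyl G) {x : E5} (hx : x ∈ Om (Fin 5)) {c : ℝ}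
    (hc : 0 < c) : eul G (c • x) = (c ^ 5)⁻¹ * eul G x := by
  unfold eul
  have h1 : (fun i j k l => Pf (cf (c • x)) (Sm G (c • x) i j) (Sm G (c • x) k l)) =
      fun i j k l => c * Pf (cf x) (Sm G x i j) (Sm G x k l) := by
    funext i j k l
    rw [Sm_smul hG hx hc, Sm_smul hG hx hc, Pool.Agent.GBS.H11.cf_smul]
    unfold Pf
    rw [ctr_smul]
  rw [h1, ctr_mul, Pool.Agent.GBS.H11.cf_smul, ctr_smul, Pool.Agent.MVS.H23.sd_smul hG hx hc,
    norm_smul, Real.norm_of_nonneg hc.le]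
  have hn : ‖x‖ ≠ 0 := norm_ne_zero_iff.2 hx
  field_simp

theorem rct : RctStmt := by
  intro G hG
  refine ⟨?_, fun c hc x hx => ?_⟩
  · unfold rz
    exact (((Pool.Agent.MVS.H14.sd_cont.comp_continuousOn hG.metric.smooth.continuousOn).mul
      (nr2_cont hG)).div_const 4).sub ((eul_cont hG).div_const 16)
  · unfold rz
    rw [nr2_smul hG hx hc, eul_smul hG hx hc, Pool.Agent.MVS.H23.sd_smul hG hx hc]
    ring

end Pool.Agent.GBS.H21
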